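import Pool.Agent.Helper70.LA.Defs

/-!
# MP_c61924_co, all dimensions, module PTS1: binary digits
-/

set_option autoImplicit false

namespace Pool.Agent.Helper70.LA

open Finset

/-! ### binary values -/

theorem PTS1_val_succ {L : ℕ} (b : Fin (L + 1) → Bool) :
    val b = (if b 0 then 2 ^ L else 0) + val (fun j => b j.succ) := by
  unfold val
  rw [Fin.sum_univ_succ]
  congr 1
  apply Finset.sum_congr rfl
  intro j _
  have : L + 1 - 1 - (j.succ : ℕ) = L - 1 - (j : ℕ) := by
    rw [Fin.val_succ]; omega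
  rw [this]

theorem PTS1_val_lt {L : ℕ} (b : Fin L → Bool) : val b < 2 ^ L := by
  induction L with
  | zero => simp [val]
  | succ L ih =>
    rw [PTS1_val_succ]
    have := ih (fun j => b j.succ)
    have h2 : 2 ^ (L + 1) = 2 ^ L + 2 ^ L := by ring
    split_ifs <;> omega

theorem PTS1_lex {L : ℕ} (a b : Fin L → Bool) (j0 : Fin L) (h : ∀ j < j0, a j = b j)
    (ha : a j0 = true) (hb : b j0 = false) : val b < val a := by
  induction L with
  | zero => exact j0.elim0
  | succ L ih =>
    rw [PTS1_val_succ, PTS1_val_succ]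
    rcases Fin.eq_zero_or_eq_succ j0 with rfl | ⟨j', rfl⟩
    · have := PTS1_val_lt (fun j => b j.succ)
      rw [ha, hb]
      simp only [Bool.false_eq_true, if_false, if_true]
      omega
    · have h0 : a 0 = b 0 := h 0 (Fin.succ_pos j')
      have h1 := ih (fun j => a j.succ) (fun j => b j.succ) j'
        (fun j hj => h j.succ (Fin.succ_lt_succ_iff.2 hj)) ha hb
      rw [h0]
      omega

theorem PTS1_sum_pow (L : ℕ) : (∑ j : Fin L, (2 : ℝ) ^ (L - 1 - (j : ℕ))) = 2 ^ L - 1 := by
  induction L with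
  | zero => simp
  | succ L ih =>
    rw [Fin.sum_univ_succ]
    have h : ∀ j : Fin L, (2 : ℝ) ^ (L + 1 - 1 - (j.succ : ℕ)) = 2 ^ (L - 1 - (j : ℕ)) := by
      intro j
      congr 1
      rw [Fin.val_succ]; omega
    simp_rw [h]
    rw [ih]
    simp
    ring

theorem val_eq {L : ℕ} (b : Fin L → Bool) :
    (val b : ℝ) = (2 ^ L - 1) / 2 + ∑ j : Fin L, (if b j then 1 else -1) * (2 : ℝ) ^ (L - 1 - (j : ℕ)) / 2 := by
  rw [← PTS1_sum_pow L, Finset.sum_div, ← Finset.sum_add_distrib]
  unfold val
  push_cast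
  apply Finset.sum_congr rfl
  intro j _
  split_ifs <;> ring

variable {ι : Type} [Fintype ι] [DecidableEq ι] {L : ℕ} {α : Type}

theorem num_eq (i : ι) (x : ι × Fin L → Bool) (u : ℝ) :
    ((num i x : ℝ) + u) / 2 ^ L = (u + (2 ^ L - 1) / 2) / 2 ^ L + wt i 0 x := by
  have h : (num i x : ℝ) = (2 ^ L - 1) / 2 +
      ∑ j : Fin L, (if x (i, j) then 1 else -1) * (2 : ℝ) ^ (L - 1 - (j : ℕ)) / 2 :=
    val_eq fun j => x (i, j)
  have hw : wt i 0 x = (∑ j : Fin L, (if x (i, j) then 1 else -1) *
      (2 : ℝ) ^ (L - 1 - (j : ℕ)) / 2) / 2 ^ L := by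
    unfold wt
    rw [← Finset.range_eq_Ico, Finset.sum_range, Finset.sum_div]
    apply Finset.sum_congr rfl
    intro j _
    unfold sg
    rw [dif_pos j.2]
    have hj := j.2
    have e : (2 : ℝ) ^ L = 2 ^ (L - 1 - (j : ℕ)) * 2 ^ ((j : ℕ) + 1) := by
      rw [← pow_add]
      congr 1
      omega
    rw [e]
    have h1 : (2 : ℝ) ^ (L - 1 - (j : ℕ)) ≠ 0 := by positivity
    field_simp
    ring
  rw [h, hw]
  ring

/-- bits of the mixture -/
theorem PTS1_mix_lt (i : ι) (r : ℕ) (x y : ι × Fin L → Bool) (j : Fin L) (hj : (j : ℕ) < r) :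
    mix (low i r) x y (i, j) = x (i, j) := by
  unfold mix
  rw [if_neg]
  simp [low]
  exact hj

/-- a threshold splits at most one cell of a given level -/
theorem splits_unique (i : ι) (r m : ℕ) (x y : ι × Fin L → Bool) (hx : Splits i r m x)
    (hy : Splits i r m y) : ∀ j : Fin L, (j : ℕ) < r → x (i, j) = y (i, j) := by
  have key : ∀ (x y : ι × Fin L → Bool), Splits i r m x → Splits i r m y → ∀ j0 : Fin L,
      (j0 : ℕ) < r → (∀ j < j0, x (i, j) = y (i, j)) → x (i, j0) = true → y (i, j0) = false →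
      False := by
    intro x y hx hy j0 hj0 hlt hxt hyf
    obtain ⟨y1, z1, h1, h2⟩ := hx
    obtain ⟨y2, z2, h3, h4⟩ := hy
    have h5 : num i (mix (low i r) y z2) < num i (mix (low i r) x y1) := by
      apply PTS1_lex _ _ j0
      · intro j hj
        have hjr : (j : ℕ) < r := lt_trans hj hj0
        rw [PTS1_mix_lt i r x y1 j hjr, PTS1_mix_lt i r y z2 j hjr]
        exact hlt j hj
      · rw [PTS1_mix_lt i r x y1 j0 hj0]; exact hxt
      · rw [PTS1_mix_lt i r y z2 j0 hj0]; exact hyf
    omega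
  by_contra hcon
  push Not at hcon
  obtain ⟨j, hjr, hj⟩ := hcon
  -- minimal difference
  have hex : ∃ n : ℕ, ∃ h : n < L, n < r ∧ x (i, ⟨n, h⟩) ≠ y (i, ⟨n, h⟩) := ⟨j, j.2, hjr, hj⟩
  classical
  obtain ⟨hL, hr, hne⟩ := Nat.find_spec hex
  have hmin : ∀ j : Fin L, j < ⟨Nat.find hex, hL⟩ → x (i, j) = y (i, j) := by
    intro j' hj'
    by_contra hne'
    have : (j' : ℕ) < Nat.find hex := hj'
    exact Nat.find_min hex this ⟨j'.2, lt_trans this hr, hne'⟩
  rcases Bool.eq_false_or_eq_true (x (i, ⟨Nat.find hex, hL⟩)) with hxv | hxv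
  · rcases Bool.eq_false_or_eq_true (y (i, ⟨Nat.find hex, hL⟩)) with hyv | hyv
    · exact hne (hxv.trans hyv.symm)
    · exact key x y hx hy ⟨Nat.find hex, hL⟩ hr hmin hxv hyv
  · rcases Bool.eq_false_or_eq_true (y (i, ⟨Nat.find hex, hL⟩)) with hyv | hyv
    · exact key y x hy hx ⟨Nat.find hex, hL⟩ hr (fun j hj => (hmin j hj).symm) hyv hxv
    · exact hne (hxv.trans hyv.symm)

theorem av_splits_le (n : ℕ) (hn : n < L) (r : ι → ℕ) (hr : r ∈ shapes ι n) (m : ι → ℕ) :
    av (ind {x : ι × Fin L → Bool | ∀ i, Splits i (r i) (m i) x}) ≤ 1 / 2 ^ n := by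
  classical
  have hrn : ∑ i, r i = n := (Finset.mem_filter.1 hr).2
  have hri : ∀ i, r i ≤ L := by
    intro i
    have : r i ≤ ∑ i, r i := Finset.single_le_sum (fun _ _ => Nat.zero_le _) (Finset.mem_univ i)
    omega
  set A : Finset (ι × Fin L → Bool) :=
    univ.filter fun x => ∀ i, Splits i (r i) (m i) x with hA
  set B : Finset (ι × Fin L) := univ.filter fun k => (k.2 : ℕ) < r k.1 with hB
  have hBcard : B.card = n := by
    have h1 : B = (univ.sigma (fun i : ι => univ.filter fun j : Fin L => (j : ℕ) < r i)).map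
        (Equiv.sigmaEquivProd ι (Fin L)).toEmbedding := by
      ext ⟨i, j⟩
      simp [hB]
    rw [h1, Finset.card_map, Finset.card_sigma, ← hrn]
    apply Finset.sum_congr rfl
    intro i _
    have h2 : (univ.filter fun j : Fin L => (j : ℕ) < r i).card = r i := by
      rw [← Fintype.card_subtype]
      rw [Fintype.card_congr (β := Fin (r i))]
      · simp
      · exact { toFun := fun j => ⟨j.1, j.2⟩
                invFun := fun j => ⟨⟨j, lt_of_lt_of_le j.2 (hri i)⟩, j.2⟩
                left_inv := fun j => rfl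
                right_inv := fun j => rfl }
    exact h2
  have hcardA : A.card ≤ 2 ^ (Fintype.card (ι × Fin L) - n) := by
    have h1 : A.card ≤ (univ : Finset ({k : ι × Fin L // k ∉ B} → Bool)).card := by
      apply Finset.card_le_card_of_injOn (fun x k => x k.1)
      · intro x _; simp
      · intro x hx y hy hxy
        have hx' : ∀ i, Splits i (r i) (m i) x := (Finset.mem_filter.1 hx).2
        have hy' : ∀ i, Splits i (r i) (m i) y := (Finset.mem_filter.1 hy).2
        funext k
        by_cases hk : k ∈ B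
        · have hk' : (k.2 : ℕ) < r k.1 := (Finset.mem_filter.1 hk).2
          exact splits_unique k.1 (r k.1) (m k.1) x y (hx' _) (hy' _) k.2 hk'
        · exact congrFun hxy ⟨k, hk⟩
    refine h1.trans (le_of_eq ?_)
    rw [Finset.card_univ, Fintype.card_fun, Fintype.card_bool, Fintype.card_subtype_compl]
    congr 2
    rw [Fintype.card_coe, hBcard]
  have hnK : n ≤ Fintype.card (ι × Fin L) := by
    rw [← hBcard]
    exact Finset.card_le_univ B
  have hsum : ∑ x, ind {x : ι × Fin L → Bool | ∀ i, Splits i (r i) (m i) x} x = A.card := by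
    unfold ind
    rw [hA, Finset.card_filter]
    push_cast
    apply Finset.sum_congr rfl
    intro x _
    rw [Set.indicator_apply]
    simp only [Set.mem_ofPred_eq]
  unfold av
  rw [hsum, div_le_div_iff₀ (by positivity) (by positivity), one_mul]
  calc (A.card : ℝ) * 2 ^ n ≤ 2 ^ (Fintype.card (ι × Fin L) - n) * 2 ^ n := by
        apply mul_le_mul_of_nonneg_right _ (by positivity)
        exact_mod_cast hcardA
    _ = 2 ^ Fintype.card (ι × Fin L) := by
        rw [← pow_add, Nat.sub_add_cancel hnK]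

end Pool.Agent.Helper70.LA
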